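import Mathlib

/-!
# Symbolic defect polynomials are not asymptotically quasi-unimodal

Let `Δ` be the join of the triangle with the vertices `0, 1, 2` and the boundary of the tetrahedron
with the vertices `3, 4, 5, 6`, a simplicial complex of dimension `5` with `7` vertices.  For all
large `m` the coefficient sequence `a_1, a_2, a_3, a_4` of the `m`-th symbolic defect polynomial of
`Δ` satisfies `a_1 > a_2 < a_3`: the numbers `a_1` and `a_3` grow at least like `m ^ 5`, but `a_2`
grows at most like `m ^ 4`.  So this sequence is not unimodal for all large `m`, and the sequence of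
the symbolic defect polynomials of `Δ` is not asymptotically quasi-unimodal, over any field.
-/

set_option autoImplicit false

namespace Pool.Agent.Results.MP_2a0133_al.NotUnimodal

open MvPolynomial

/-- A simplicial complex on the vertex set `Fin n`: a set of faces which contains all sets with one
element and all subsets of its members. -/
def IsComplex {n : ℕ} (Δ : Finset (Finset (Fin n))) : Prop :=
  (∀ v, {v} ∈ Δ) ∧ ∀ F ∈ Δ, ∀ G, G ⊆ F → G ∈ Δ

/-- The dimension of a simplicial complex (a face with `i + 1` elements has dimension `i`). -/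
def dim {n : ℕ} (Δ : Finset (Finset (Fin n))) : ℕ := Δ.sup Finset.card - 1

/-- The facets of a simplicial complex: the maximal faces. -/
def facets {n : ℕ} (Γ : Finset (Finset (Fin n))) : Finset (Finset (Fin n)) :=
  Γ.filter (fun F => ∀ G ∈ Γ, F ⊆ G → F = G)

/-- The facet ideal of a simplicial complex: it is generated by the squarefree monomials of its
facets. -/
noncomputable def facetIdeal (K : Type) [Field K] {n : ℕ} (Γ : Finset (Finset (Fin n))) :
    Ideal (MvPolynomial (Fin n) K) :=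
  Ideal.span ((fun F : Finset (Fin n) => ∏ v ∈ F, X v) '' (facets Γ : Set (Finset (Fin n))))

/-- The simplicial complex `Δ^[i]` whose facets are the `i`-dimensional faces of `Δ`. -/
def skel {n : ℕ} (Δ : Finset (Finset (Fin n))) (i : ℕ) : Finset (Finset (Fin n)) :=
  Finset.univ.filter (fun G => ∃ F ∈ Δ, F.card = i + 1 ∧ G ⊆ F)

/-- The `m`-th symbolic power of a squarefree monomial ideal: the intersection of the `m`-th powers
of its minimal primes. -/
noncomputable def symbolicPower {K : Type} [Field K] {n : ℕ} (I : Ideal (MvPolynomial (Fin n) K))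
    (m : ℕ) : Ideal (MvPolynomial (Fin n) K) :=
  ⨅ P ∈ I.minimalPrimes, P ^ m

/-- The symbolic defect: the minimal number of generators of the module `I^(m) / I^m`. -/
noncomputable def sdefect {K : Type} [Field K] {n : ℕ} (I : Ideal (MvPolynomial (Fin n) K))
    (m : ℕ) : ℕ :=
  (⊤ : Submodule (MvPolynomial (Fin n) K)
    (symbolicPower I m ⧸ Submodule.comap (symbolicPower I m).subtype (I ^ m))).spanFinrank

/-- The coefficient sequence `a_1, ..., a_(d-1)` of the `m`-th symbolic defect polynomial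
`t ^ 2 * ∑ i, a_i t ^ i`. -/
noncomputable def coeffSeq (K : Type) [Field K] {n : ℕ} (Δ : Finset (Finset (Fin n))) (m i : ℕ) :
    ℕ :=
  sdefect (facetIdeal K (skel Δ i)) m

/-- The sequence `a_1, ..., a_p` is unimodal. -/
def Unimodal (a : ℕ → ℕ) (p : ℕ) : Prop :=
  ∃ k, 1 ≤ k ∧ k ≤ p ∧ (∀ i j, 1 ≤ i → i ≤ j → j ≤ k → a i ≤ a j) ∧
    ∀ i j, k ≤ i → i ≤ j → j ≤ p → a j ≤ a i

/-- The sequence of the symbolic defect polynomials of `Δ` is asymptotically quasi-unimodal. -/
def AsymptoticallyQuasiUnimodal (K : Type) [Field K] {n : ℕ} (Δ : Finset (Finset (Fin n))) : Prop :=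
  ∃ k, 1 ≤ k ∧ ∃ N, ∀ l, N ≤ l → k ∣ l → Unimodal (coeffSeq K Δ l) (dim Δ - 1)

/-! ### Monomial ideals -/

section general

variable {K : Type} [Field K] {n : ℕ}

/-- The ideal of the polynomials all of whose monomials have degree at least `m` in the variables of
`C`. -/
noncomputable def J (K : Type) [Field K] {n : ℕ} (C : Finset (Fin n)) (m : ℕ) :
    Ideal (MvPolynomial (Fin n) K) :=
  Ideal.span ((fun u => monomial u (1 : K)) '' {u | m ≤ ∑ v ∈ C, u v})

theorem mem_J {C : Finset (Fin n)} {m : ℕ} {f : MvPolynomial (Fin n) K} :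
    f ∈ J K C m ↔ ∀ u ∈ f.support, m ≤ ∑ v ∈ C, u v := by
  unfold J
  rw [mem_ideal_span_monomial_image]
  constructor
  · intro h u hu
    obtain ⟨s, hs, hsu⟩ := h u hu
    exact le_trans hs (Finset.sum_le_sum fun v _ => hsu v)
  · intro h u hu
    exact ⟨u, h u hu, le_refl u⟩

theorem J_mul (C : Finset (Fin n)) (a b : ℕ) : J K C a * J K C b ≤ J K C (a + b) := by
  unfold J
  rw [Ideal.span_mul_span']
  apply Ideal.span_mono
  rintro _ ⟨_, ⟨u, hu, rfl⟩, _, ⟨w, hw, rfl⟩, rfl⟩
  refine ⟨u + w, ?_, ?_⟩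
  · simp only [Set.mem_ofPred_eq] at hu hw ⊢
    simp only [Finsupp.add_apply, Finset.sum_add_distrib]
    omega
  · simp [monomial_mul]

/-- The ideal generated by the variables of `C`. -/
noncomputable def PC (K : Type) [Field K] {n : ℕ} (C : Finset (Fin n)) :
    Ideal (MvPolynomial (Fin n) K) :=
  Ideal.span (X '' (C : Set (Fin n)))

theorem PC_le_J (C : Finset (Fin n)) : PC K C ≤ J K C 1 := by
  unfold PC
  rw [Ideal.span_le]
  rintro _ ⟨v, hv, rfl⟩
  rw [SetLike.mem_coe, mem_J]
  intro u hu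
  classical
  rw [support_X, Finset.mem_singleton] at hu
  subst hu
  have : (Finsupp.single v 1 : Fin n →₀ ℕ) v ≤ ∑ w ∈ C, (Finsupp.single v 1 : Fin n →₀ ℕ) w :=
    Finset.single_le_sum (f := fun w => (Finsupp.single v 1 : Fin n →₀ ℕ) w)
      (fun _ _ => Nat.zero_le _) hv
  simpa using this

theorem PC_pow_le (C : Finset (Fin n)) (m : ℕ) : PC K C ^ m ≤ J K C m := by
  induction m with
  | zero =>
    intro f _
    rw [mem_J]
    intro u _
    exact Nat.zero_le _
  | succ m ih =>
    rw [pow_succ]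
    exact le_trans (Ideal.mul_mono ih (PC_le_J C)) (J_mul C m 1)

theorem PC_prime (C : Finset (Fin n)) : (PC K C).IsPrime := by
  classical
  set φ : MvPolynomial (Fin n) K →ₐ[K] MvPolynomial (Fin n) K :=
    aeval (fun v => if v ∈ C then 0 else X v) with hφ
  have h1 : PC K C ≤ RingHom.ker φ.toRingHom := by
    unfold PC
    rw [Ideal.span_le]
    rintro _ ⟨v, hv, rfl⟩
    rw [SetLike.mem_coe, RingHom.mem_ker]
    have hv' : v ∈ C := hv
    simp [hφ, hv']
  have h2 : ∀ f, f - φ f ∈ PC K C := by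
    intro f
    induction f using MvPolynomial.induction_on with
    | C a => simp [hφ]
    | add p q hp hq =>
      have : p + q - φ (p + q) = (p - φ p) + (q - φ q) := by rw [map_add]; ring
      rw [this]
      exact Ideal.add_mem _ hp hq
    | mul_X p v hp =>
      have : p * X v - φ (p * X v) = (p - φ p) * X v + φ p * (X v - φ (X v)) := by
        rw [map_mul]; ring
      rw [this]
      refine Ideal.add_mem _ (Ideal.mul_mem_right _ _ hp) (Ideal.mul_mem_left _ _ ?_)
      by_cases hv : v ∈ C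
      · have : φ (X v) = 0 := by simp [hφ, hv]
        rw [this, sub_zero]
        exact Ideal.subset_span ⟨v, hv, rfl⟩
      · have : φ (X v) = X v := by simp [hφ, hv]
        rw [this, sub_self]
        exact Ideal.zero_mem _
  have h3 : PC K C = RingHom.ker φ.toRingHom := by
    apply le_antisymm h1
    intro f hf
    rw [RingHom.mem_ker] at hf
    have hf' : φ f = 0 := hf
    have := h2 f
    rwa [hf', sub_zero] at this
  rw [h3]
  exact RingHom.ker_isPrime _

/-- The squarefree monomial ideal of a set of edges. -/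
noncomputable def edgeIdeal (K : Type) [Field K] {n : ℕ} (E : Finset (Finset (Fin n))) :
    Ideal (MvPolynomial (Fin n) K) :=
  Ideal.span ((fun F : Finset (Fin n) => ∏ v ∈ F, X v) '' (E : Set (Finset (Fin n))))

theorem monomial_mem_pow (P : Ideal (MvPolynomial (Fin n) K)) (C : Finset (Fin n))
    (hP : ∀ v ∈ C, (X v : MvPolynomial (Fin n) K) ∈ P) (u : Fin n →₀ ℕ) (m : ℕ)
    (hm : m ≤ ∑ v ∈ C, u v) : monomial u (1 : K) ∈ P ^ m := by
  classical
  have h1 : monomial u (1 : K) = ∏ v, X v ^ u v := by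
    rw [monomial_eq]
    simp [Finsupp.prod_fintype]
  rw [h1, ← Finset.prod_mul_prod_compl C]
  apply Ideal.mul_mem_right
  refine Ideal.pow_le_pow_right hm ?_
  rw [← Finset.prod_pow_eq_pow_sum]
  exact Ideal.prod_mem_prod fun v hv => Ideal.pow_mem_pow (hP v hv) _

theorem mem_symb (E : Finset (Finset (Fin n))) (m : ℕ) (u : Fin n →₀ ℕ)
    (h : ∀ C : Finset (Fin n), (∀ F ∈ E, ∃ v ∈ F, v ∈ C) → m ≤ ∑ v ∈ C, u v) :
    monomial u (1 : K) ∈ symbolicPower (edgeIdeal K E) m := by
  classical
  unfold symbolicPower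
  simp only [Submodule.mem_iInf]
  intro P hP
  have hprime : P.IsPrime := hP.1.1
  have hle : edgeIdeal K E ≤ P := hP.1.2
  refine monomial_mem_pow P (Finset.univ.filter fun v => (X v : MvPolynomial (Fin n) K) ∈ P)
    (fun v hv => (Finset.mem_filter.1 hv).2) u m (h _ ?_)
  intro F hF
  have h1 : (∏ v ∈ F, X v : MvPolynomial (Fin n) K) ∈ P := hle (Ideal.subset_span ⟨F, hF, rfl⟩)
  obtain ⟨v, hv, hvP⟩ := (Ideal.IsPrime.prod_mem_iff (hp := hprime)).1 h1
  exact ⟨v, hv, by simpa using hvP⟩

theorem X_mem_PC {C : Finset (Fin n)} {v : Fin n} :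
    (X v : MvPolynomial (Fin n) K) ∈ PC K C ↔ v ∈ C := by
  constructor
  · intro h
    have h1 := mem_J.1 (PC_le_J C h) (Finsupp.single v 1) (by classical simp [support_X])
    by_contra hv
    have : ∑ w ∈ C, (Finsupp.single v 1 : Fin n →₀ ℕ) w = 0 := by
      apply Finset.sum_eq_zero
      intro w hw
      rw [Finsupp.single_apply, if_neg]
      rintro rfl
      exact hv hw
    omega
  · intro h
    exact Ideal.subset_span ⟨v, h, rfl⟩

theorem symb_le (E : Finset (Finset (Fin n))) (m : ℕ) (C : Finset (Fin n))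
    (hC : ∀ F ∈ E, ∃ v ∈ F, v ∈ C)
    (hmin : ∀ v ∈ C, ∃ F ∈ E, ∀ w ∈ F, w ∈ C → w = v) :
    symbolicPower (edgeIdeal K E) m ≤ J K C m := by
  refine le_trans ?_ (PC_pow_le C m)
  unfold symbolicPower
  apply iInf₂_le
  refine ⟨⟨PC_prime C, ?_⟩, ?_⟩
  · unfold edgeIdeal
    rw [Ideal.span_le]
    rintro _ ⟨F, hF, rfl⟩
    obtain ⟨v, hv, hvC⟩ := hC F hF
    exact (Ideal.IsPrime.prod_mem_iff (hp := PC_prime C)).2 ⟨v, hv, X_mem_PC.2 hvC⟩
  · rintro Q ⟨hQ, hIQ⟩ hle
    change PC K C ≤ Q
    unfold PC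
    rw [Ideal.span_le]
    rintro _ ⟨v, hv, rfl⟩
    obtain ⟨F, hF, hF'⟩ := hmin v hv
    have h1 : (∏ v ∈ F, X v : MvPolynomial (Fin n) K) ∈ Q := hIQ (Ideal.subset_span ⟨F, hF, rfl⟩)
    obtain ⟨w, hw, hwQ⟩ := (Ideal.IsPrime.prod_mem_iff (hp := hQ)).1 h1
    have hwC : w ∈ C := X_mem_PC.1 (hle hwQ)
    rw [← hF' w hw hwC]
    exact hwQ

theorem upper (I : Ideal (MvPolynomial (Fin n) K)) (m : ℕ) (G : Finset (Fin n →₀ ℕ))
    (hG : ∀ u ∈ G, monomial u (1 : K) ∈ symbolicPower I m)
    (h : ∀ f ∈ symbolicPower I m, ∀ w ∈ f.support, ∃ u ∈ G, u ≤ w) :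
    sdefect I m ≤ G.card := by
  classical
  have h1 : symbolicPower I m = Ideal.span ((fun u => monomial u (1 : K)) '' (G : Set _)) := by
    apply le_antisymm
    · intro f hf
      rw [mem_ideal_span_monomial_image]
      exact h f hf
    · rw [Ideal.span_le]
      rintro _ ⟨u, hu, rfl⟩
      exact hG u hu
  unfold sdefect
  set N := Submodule.comap (symbolicPower I m).subtype (I ^ m)
  have h2 : (⊤ : Submodule (MvPolynomial (Fin n) K) (symbolicPower I m ⧸ N)) =
      Submodule.map N.mkQ ⊤ := by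
    rw [Submodule.map_top, Submodule.range_mkQ]
  rw [h2]
  refine le_trans (Submodule.spanFinrank_map_le_of_fg _ (IsNoetherian.noetherian _)) ?_
  rw [Submodule.spanFinrank_top, h1]
  refine le_trans (Submodule.spanFinrank_span_le_ncard_of_finite ?_) ?_
  · exact (G.finite_toSet).image _
  · refine le_trans (Set.ncard_image_le G.finite_toSet) ?_
    rw [Set.ncard_coe_finset]

theorem lower (I : Ideal (MvPolynomial (Fin n) K)) (m : ℕ) (G : Finset (Fin n →₀ ℕ))
    (hG : ∀ u ∈ G, monomial u (1 : K) ∈ symbolicPower I m)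
    (hmin : ∀ u ∈ G, ∀ f ∈ symbolicPower I m, ∀ w ∈ f.support, w ≤ u → w = u)
    (hI : ∀ u ∈ G, ∀ f ∈ I ^ m, f.coeff u = 0) :
    G.card ≤ sdefect I m := by
  classical
  unfold sdefect
  set N := Submodule.comap (symbolicPower I m).subtype (I ^ m) with hN
  obtain ⟨s, hs1, hs2⟩ := Submodule.FG.exists_span_finset_card_eq_spanFinrank
    (p := (⊤ : Submodule (MvPolynomial (Fin n) K) (symbolicPower I m ⧸ N)))
    (IsNoetherian.noetherian _)
  rw [← hs1]
  -- the coefficient map
  let φ : symbolicPower I m → (G → K) := fun f u => (f : MvPolynomial (Fin n) K).coeff u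
  have hφN : ∀ f g : symbolicPower I m, N.mkQ f = N.mkQ g → φ f = φ g := by
    intro f g hfg
    have h1 : f - g ∈ N := by
      rw [← Submodule.ker_mkQ N, LinearMap.mem_ker, map_sub, hfg, sub_self]
    have h2 : ((f : MvPolynomial (Fin n) K) - g) ∈ I ^ m := h1
    funext u
    have h3 := hI u u.2 _ h2
    rw [coeff_sub] at h3
    exact sub_eq_zero.1 h3
  have hφadd : ∀ f g, φ (f + g) = φ f + φ g := by
    intro f g
    funext u
    simp [φ]
  have hφsmul : ∀ (r : MvPolynomial (Fin n) K) (f), φ (r • f) = (r.coeff 0) • φ f := by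
    intro r f
    funext u
    simp only [φ, Submodule.coe_smul, smul_eq_mul, Pi.smul_apply]
    rw [coeff_mul, Finset.sum_eq_single (0, (u : Fin n →₀ ℕ))]
    · rintro ⟨a, b⟩ hab hne
      rw [Finset.HasAntidiagonal.mem_antidiagonal] at hab
      by_cases hb : coeff b (f : MvPolynomial (Fin n) K) = 0
      · simp [hb]
      · exfalso
        apply hne
        have hbu : b = u := hmin u u.2 f f.2 b (mem_support_iff.2 hb) (by
          rw [← hab]; exact le_add_self)
        have : a = 0 := by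
          rw [hbu] at hab
          simpa using hab
        rw [this, hbu]
    · intro hh
      exfalso
      apply hh
      simp
  choose lift hlift using fun x : (symbolicPower I m ⧸ N) => N.mkQ_surjective x
  set V : Submodule K (G → K) := Submodule.span K (s.image (fun x => φ (lift x)) : Set (G → K))
    with hV
  have key : ∀ x : (symbolicPower I m ⧸ N), φ (lift x) ∈ V := by
    intro x
    have hx : x ∈ Submodule.span (MvPolynomial (Fin n) K) (s : Set (symbolicPower I m ⧸ N)) := by
      rw [hs2]; trivial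
    induction hx using Submodule.span_induction with
    | mem x hx =>
      apply Submodule.subset_span
      rw [Finset.coe_image]
      exact ⟨x, hx, rfl⟩
    | zero =>
      have : φ (lift 0) = φ 0 := hφN _ _ (by rw [hlift, map_zero])
      rw [this]
      have : φ 0 = 0 := by funext u; simp [φ]
      rw [this]
      exact V.zero_mem
    | add x y _ _ hx hy =>
      have : φ (lift (x + y)) = φ (lift x + lift y) := hφN _ _ (by
        rw [hlift, map_add, hlift, hlift])
      rw [this, hφadd]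
      exact V.add_mem hx hy
    | smul r x _ hx =>
      have : φ (lift (r • x)) = φ (r • lift x) := hφN _ _ (by
        rw [hlift, map_smul, hlift])
      rw [this, hφsmul]
      exact V.smul_mem _ hx
  have htop : V = ⊤ := by
    rw [eq_top_iff]
    intro g _
    have : g = ∑ u : G, g u • φ ⟨monomial (u : Fin n →₀ ℕ) (1 : K), hG u u.2⟩ := by
      funext w
      simp only [φ, Finset.sum_apply, Pi.smul_apply, smul_eq_mul, coeff_monomial]
      rw [Finset.sum_eq_single w]
      · simp
      · intro b _ hb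
        rw [if_neg, mul_zero]
        intro h
        exact hb (Subtype.ext h)
      · intro h
        exact absurd (Finset.mem_univ _) h
    rw [this]
    apply Submodule.sum_mem
    intro u _
    apply Submodule.smul_mem
    have h1 := key (N.mkQ ⟨monomial (u : Fin n →₀ ℕ) (1 : K), hG u u.2⟩)
    rwa [hφN _ ⟨monomial (u : Fin n →₀ ℕ) (1 : K), hG u u.2⟩ (by rw [hlift])] at h1
  have h1 : Module.finrank K (G → K) = G.card := by
    rw [Module.finrank_fintype_fun_eq_card, Fintype.card_coe]
  rw [← h1, ← finrank_top K (G → K), ← htop, hV]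
  refine le_trans (finrank_span_finset_le_card _) Finset.card_image_le

end general

/-! ### The complex -/

/-- The faces of the join of the simplex with the vertices `0, 1, 2` and the boundary of the
tetrahedron with the vertices `3, 4, 5, 6`. -/
def Δ₀ : Finset (Finset (Fin 7)) := Finset.univ.filter (fun F => ¬ ({3, 4, 5, 6} : Finset (Fin 7)) ⊆ F)

theorem isComplex_Δ₀ : IsComplex Δ₀ := by
  constructor
  · intro v
    fin_cases v <;> simp [Δ₀] <;> decide
  · intro F hF G hG
    simp only [Δ₀, Finset.mem_filter, Finset.mem_univ, true_and] at hF ⊢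
    exact fun h => hF (h.trans hG)

theorem facets_skel {n : ℕ} (Δ : Finset (Finset (Fin n))) (i : ℕ) :
    facets (skel Δ i) = Δ.filter (fun F => F.card = i + 1) := by
  ext F
  simp only [facets, skel, Finset.mem_filter, Finset.mem_univ, true_and]
  constructor
  · rintro ⟨⟨G, hG, hc, hFG⟩, hmax⟩
    have : F = G := hmax G ⟨G, hG, hc, subset_rfl⟩ hFG
    subst this
    exact ⟨hG, hc⟩
  · rintro ⟨hF, hc⟩
    refine ⟨⟨F, hF, hc, subset_rfl⟩, ?_⟩
    rintro G ⟨H, _, hHc, hGH⟩ hFG
    have h1 : F = H := Finset.eq_of_subset_of_card_le (hFG.trans hGH) (by omega)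
    apply Finset.Subset.antisymm hFG
    rw [h1]
    exact hGH

theorem facetIdeal_skel (K : Type) [Field K] {n : ℕ} (Δ : Finset (Finset (Fin n))) (i : ℕ) :
    facetIdeal K (skel Δ i) = edgeIdeal K (Δ.filter (fun F => F.card = i + 1)) := by
  unfold facetIdeal edgeIdeal
  rw [facets_skel]

/-- The edges, triangles and tetrahedra. -/
def E (i : ℕ) : Finset (Finset (Fin 7)) := Δ₀.filter (fun F => F.card = i + 1)

theorem mem_E {i : ℕ} {F : Finset (Fin 7)} :
    F ∈ E i ↔ ¬ ({3, 4, 5, 6} : Finset (Fin 7)) ⊆ F ∧ F.card = i + 1 := by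
  simp [E, Δ₀]

theorem dim_Δ₀ : dim Δ₀ = 5 := by
  unfold dim
  have h1 : Δ₀.sup Finset.card = 6 := by
    apply le_antisymm
    · apply Finset.sup_le
      intro F hF
      simp only [Δ₀, Finset.mem_filter, Finset.mem_univ, true_and] at hF
      have h2 : F ≠ Finset.univ := by
        rintro rfl
        exact hF (Finset.subset_univ _)
      have h3 : F.card < 7 := by
        have := Finset.card_lt_card (Finset.ssubset_univ_iff.2 h2)
        simpa using this
      omega
    · have h2 : ({0, 1, 2, 3, 4, 5} : Finset (Fin 7)) ∈ Δ₀ := by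
        simp only [Δ₀, Finset.mem_filter, Finset.mem_univ, true_and]
        decide
      exact le_trans (by decide) (Finset.le_sup (f := Finset.card) h2)
  rw [h1]

/-! ### Sums over subsets -/

theorem sum7 (F : Finset (Fin 7)) (u : Fin 7 → ℕ) :
    ∑ v ∈ F, u v = (if 0 ∈ F then u 0 else 0) + (if 1 ∈ F then u 1 else 0) +
      (if 2 ∈ F then u 2 else 0) + (if 3 ∈ F then u 3 else 0) + (if 4 ∈ F then u 4 else 0) +
      (if 5 ∈ F then u 5 else 0) + (if 6 ∈ F then u 6 else 0) := by
  rw [← Fin.sum_univ_seven (fun v => if v ∈ F then u v else 0)]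
  simp

theorem card7 (F : Finset (Fin 7)) :
    F.card = (if 0 ∈ F then 1 else 0) + (if 1 ∈ F then 1 else 0) +
      (if 2 ∈ F then 1 else 0) + (if 3 ∈ F then 1 else 0) + (if 4 ∈ F then 1 else 0) +
      (if 5 ∈ F then 1 else 0) + (if 6 ∈ F then 1 else 0) := by
  rw [Finset.card_eq_sum_ones, sum7]

theorem sorted_sum (v : Fin 7 → ℕ) (h01 : v 0 ≤ v 1) (h12 : v 1 ≤ v 2) (h23 : v 2 ≤ v 3)
    (h34 : v 3 ≤ v 4) (h45 : v 4 ≤ v 5) (h56 : v 5 ≤ v 6) (F : Finset (Fin 7)) (hF : F.card = 5) :
    v 0 + v 1 + v 2 + v 3 + v 4 ≤ ∑ j ∈ F, v j ∧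
      (6 ∈ F → v 0 + v 1 + v 2 + v 3 + v 6 ≤ ∑ j ∈ F, v j) := by
  rw [sum7]
  rw [card7] at hF
  by_cases h0 : (0 : Fin 7) ∈ F <;> by_cases h1 : (1 : Fin 7) ∈ F <;>
  by_cases h2 : (2 : Fin 7) ∈ F <;> by_cases h3 : (3 : Fin 7) ∈ F <;>
  by_cases h4 : (4 : Fin 7) ∈ F <;> by_cases h5 : (5 : Fin 7) ∈ F <;>
  by_cases h6 : (6 : Fin 7) ∈ F <;>
  simp only [h0, h1, h2, h3, h4, h5, h6, if_true, if_false, true_implies, false_implies,
    and_true] at hF ⊢ <;> omega


/-! ### Powers of the ideals -/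

theorem J_pow (K : Type) [Field K] {n : ℕ} (C : Finset (Fin n)) (a m : ℕ) :
    J K C a ^ m ≤ J K C (m * a) := by
  induction m with
  | zero =>
    intro f _
    rw [mem_J]
    intro u _
    simp
  | succ m ih =>
    rw [pow_succ, Nat.succ_mul]
    exact le_trans (Ideal.mul_mono ih le_rfl) (J_mul C _ _)

theorem edge_le (K : Type) [Field K] {n : ℕ} (E : Finset (Finset (Fin n))) (r : ℕ)
    (hE : ∀ F ∈ E, r ≤ F.card) : edgeIdeal K E ≤ J K Finset.univ r := by
  classical
  unfold edgeIdeal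
  rw [Ideal.span_le]
  rintro _ ⟨F, hF, rfl⟩
  rw [SetLike.mem_coe, mem_J]
  intro u hu
  have h1 : (∏ v ∈ F, X v : MvPolynomial (Fin n) K) =
      monomial (∑ v ∈ F, Finsupp.single v 1) 1 := by
    rw [monomial_sum_one]
    rfl
  simp only [h1] at hu
  rw [support_monomial, if_neg one_ne_zero, Finset.mem_singleton] at hu
  subst hu
  have h2 : ∑ v : Fin n, (∑ w ∈ F, (Finsupp.single w 1 : Fin n →₀ ℕ)) v = F.card := by
    simp only [Finsupp.finsetSum_apply]
    rw [Finset.sum_comm]
    simp [Finsupp.single_apply]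
  rw [h2]
  exact hE F hF

theorem coeff_zero (K : Type) [Field K] {n : ℕ} (E : Finset (Finset (Fin n))) (r m : ℕ)
    (hE : ∀ F ∈ E, r ≤ F.card) (u : Fin n →₀ ℕ) (hu : ∑ v, u v < m * r)
    (f : MvPolynomial (Fin n) K) (hf : f ∈ edgeIdeal K E ^ m) : f.coeff u = 0 := by
  by_contra h
  have h1 : f ∈ J K Finset.univ (m * r) :=
    J_pow K _ _ _ (Ideal.pow_right_mono (edge_le K E r hE) m hf)
  have := mem_J.1 h1 u (mem_support_iff.2 h)
  omega

/-- The exponent vector of a function. -/
noncomputable def vec (f : Fin 7 → ℕ) : Fin 7 →₀ ℕ := Finsupp.equivFunOnFinite.symm f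

@[simp] theorem vec_apply (f : Fin 7 → ℕ) (i : Fin 7) : vec f i = f i := rfl

/-! ### The edges -/

theorem cover1 (C : Finset (Fin 7)) (hC : ∀ F ∈ E 1, ∃ v ∈ F, v ∈ C) :
    ∃ x, ∀ w, w ≠ x → w ∈ C := by
  by_cases h : ∃ x, x ∉ C
  · obtain ⟨x, hx⟩ := h
    refine ⟨x, fun w hw => ?_⟩
    obtain ⟨v, hv, hvC⟩ := hC {x, w} (by
      rw [mem_E]
      constructor
      · intro h
        have := Finset.card_le_card h
        rw [Finset.card_pair (Ne.symm hw)] at this
        revert this
        decide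
      · rw [Finset.card_pair (Ne.symm hw)])
    simp only [Finset.mem_insert, Finset.mem_singleton] at hv
    rcases hv with rfl | rfl
    · exact absurd hvC hx
    · exact hvC
  · push Not at h
    exact ⟨0, fun w _ => h w⟩

/-- The exponent vectors of many minimal generators of the symbolic power of the edge ideal. -/
def vec1 (m : ℕ) (c : Fin 5 → ℕ) : Fin 7 → ℕ :=
  ![m - (c 0 + c 1 + c 2 + c 3 + c 4 + 5), m - (c 0 + c 1 + c 2 + c 3 + c 4 + 5),
    c 0 + 1, c 1 + 1, c 2 + 1, c 3 + 1, c 4 + 1]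

theorem lower1 (K : Type) [Field K] (m q : ℕ) (hq : 6 * q ≤ m) :
    q ^ 5 ≤ sdefect (edgeIdeal K (E 1)) m := by
  classical
  set G : Finset (Fin 7 →₀ ℕ) :=
    (Finset.univ : Finset (Fin 5 → Fin q)).image (fun c => vec (vec1 m (fun i => c i))) with hG
  have hcard : G.card = q ^ 5 := by
    rw [hG, Finset.card_image_of_injective]
    · simp
    · intro c c' h
      have h0 : ∀ j : Fin 7, vec1 m (fun i => (c i : ℕ)) j = vec1 m (fun i => (c' i : ℕ)) j :=
        fun j => by
          have := DFunLike.congr_fun h j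
          simpa using this
      funext i
      apply Fin.ext
      fin_cases i
      · simpa [vec1] using h0 2
      · simpa [vec1] using h0 3
      · simpa [vec1] using h0 4
      · simpa [vec1] using h0 5
      · simpa [vec1] using h0 6
  rw [← hcard]
  have hmem : ∀ u ∈ G, ∃ c0 c1 c2 c3 c4 : ℕ, c0 < q ∧ c1 < q ∧ c2 < q ∧ c3 < q ∧ c4 < q ∧
      u 0 = m - (c0 + c1 + c2 + c3 + c4 + 5) ∧ u 1 = m - (c0 + c1 + c2 + c3 + c4 + 5) ∧
      u 2 = c0 + 1 ∧ u 3 = c1 + 1 ∧ u 4 = c2 + 1 ∧ u 5 = c3 + 1 ∧ u 6 = c4 + 1 := by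
    intro u hu
    rw [hG, Finset.mem_image] at hu
    obtain ⟨c, -, rfl⟩ := hu
    exact ⟨c 0, c 1, c 2, c 3, c 4, (c 0).2, (c 1).2, (c 2).2, (c 3).2, (c 4).2, rfl, rfl, rfl,
      rfl, rfl, rfl, rfl⟩
  apply lower
  · intro u hu
    obtain ⟨c0, c1, c2, c3, c4, h0, h1, h2, h3, h4, e0, e1, e2, e3, e4, e5, e6⟩ := hmem u hu
    apply mem_symb
    intro C hC
    obtain ⟨x, hx⟩ := cover1 C hC
    rw [sum7, e0, e1, e2, e3, e4, e5, e6]
    fin_cases x
    · have i1 : (1 : Fin 7) ∈ C := hx 1 (by decide)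
      have i2 : (2 : Fin 7) ∈ C := hx 2 (by decide)
      have i3 : (3 : Fin 7) ∈ C := hx 3 (by decide)
      have i4 : (4 : Fin 7) ∈ C := hx 4 (by decide)
      have i5 : (5 : Fin 7) ∈ C := hx 5 (by decide)
      have i6 : (6 : Fin 7) ∈ C := hx 6 (by decide)
      simp only [i1, i2, i3, i4, i5, i6, if_true]
      omega
    · have i0 : (0 : Fin 7) ∈ C := hx 0 (by decide)
      have i2 : (2 : Fin 7) ∈ C := hx 2 (by decide)
      have i3 : (3 : Fin 7) ∈ C := hx 3 (by decide)
      have i4 : (4 : Fin 7) ∈ C := hx 4 (by decide)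
      have i5 : (5 : Fin 7) ∈ C := hx 5 (by decide)
      have i6 : (6 : Fin 7) ∈ C := hx 6 (by decide)
      simp only [i0, i2, i3, i4, i5, i6, if_true]
      omega
    all_goals
      have i0 : (0 : Fin 7) ∈ C := hx 0 (by decide)
      have i1 : (1 : Fin 7) ∈ C := hx 1 (by decide)
      simp only [i0, i1, if_true]
    · have i3 : (3 : Fin 7) ∈ C := hx 3 (by decide)
      have i4 : (4 : Fin 7) ∈ C := hx 4 (by decide)
      have i5 : (5 : Fin 7) ∈ C := hx 5 (by decide)
      have i6 : (6 : Fin 7) ∈ C := hx 6 (by decide)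
      simp only [i3, i4, i5, i6, if_true]
      omega
    · have i2 : (2 : Fin 7) ∈ C := hx 2 (by decide)
      have i4 : (4 : Fin 7) ∈ C := hx 4 (by decide)
      have i5 : (5 : Fin 7) ∈ C := hx 5 (by decide)
      have i6 : (6 : Fin 7) ∈ C := hx 6 (by decide)
      simp only [i2, i4, i5, i6, if_true]
      omega
    · have i2 : (2 : Fin 7) ∈ C := hx 2 (by decide)
      have i3 : (3 : Fin 7) ∈ C := hx 3 (by decide)
      have i5 : (5 : Fin 7) ∈ C := hx 5 (by decide)
      have i6 : (6 : Fin 7) ∈ C := hx 6 (by decide)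
      simp only [i2, i3, i5, i6, if_true]
      omega
    · have i2 : (2 : Fin 7) ∈ C := hx 2 (by decide)
      have i3 : (3 : Fin 7) ∈ C := hx 3 (by decide)
      have i4 : (4 : Fin 7) ∈ C := hx 4 (by decide)
      have i6 : (6 : Fin 7) ∈ C := hx 6 (by decide)
      simp only [i2, i3, i4, i6, if_true]
      omega
    · have i2 : (2 : Fin 7) ∈ C := hx 2 (by decide)
      have i3 : (3 : Fin 7) ∈ C := hx 3 (by decide)
      have i4 : (4 : Fin 7) ∈ C := hx 4 (by decide)
      have i5 : (5 : Fin 7) ∈ C := hx 5 (by decide)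
      simp only [i2, i3, i4, i5, if_true]
      omega
  · intro u hu f hf w hw hwu
    obtain ⟨c0, c1, c2, c3, c4, h0, h1, h2, h3, h4, e0, e1, e2, e3, e4, e5, e6⟩ := hmem u hu
    have hcov : ∀ x : Fin 7, (∀ F ∈ E 1, ∃ v ∈ F, v ∈ Finset.univ.erase x) ∧
        (∀ v ∈ Finset.univ.erase x, ∃ F ∈ E 1, ∀ w ∈ F, w ∈ Finset.univ.erase x → w = v) := by
      intro x
      constructor
      · intro F hF
        rw [mem_E] at hF
        by_contra hcon
        push Not at hcon
        have : F ⊆ {x} := by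
          intro v hv
          have := hcon v hv
          simpa using this
        have := Finset.card_le_card this
        rw [Finset.card_singleton] at this
        omega
      · intro v hv
        have hvx : v ≠ x := by simpa using hv
        refine ⟨{x, v}, ?_, ?_⟩
        · rw [mem_E]
          constructor
          · intro h
            have := Finset.card_le_card h
            rw [Finset.card_pair (Ne.symm hvx)] at this
            revert this
            decide
          · rw [Finset.card_pair (Ne.symm hvx)]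
        · intro w hw hwx
          simp only [Finset.mem_insert, Finset.mem_singleton, Finset.mem_erase,
            Finset.mem_univ, and_true] at hw hwx
          tauto
    have k0 := mem_J.1 (symb_le (K := K) (E 1) m (Finset.univ.erase 0) (hcov 0).1 (hcov 0).2 hf) w hw
    have k1 := mem_J.1 (symb_le (K := K) (E 1) m (Finset.univ.erase 1) (hcov 1).1 (hcov 1).2 hf) w hw
    rw [sum7] at k0 k1
    simp only [Finset.mem_erase, Finset.mem_univ, and_true, ne_eq, not_true_eq_false, if_false,
      show ((1 : Fin 7) = 0) = False by simp, show ((2 : Fin 7) = 0) = False by simp,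
      show ((3 : Fin 7) = 0) = False by simp, show ((4 : Fin 7) = 0) = False by simp,
      show ((5 : Fin 7) = 0) = False by simp, show ((6 : Fin 7) = 0) = False by simp,
      show ((0 : Fin 7) = 1) = False by simp, show ((2 : Fin 7) = 1) = False by decide,
      show ((3 : Fin 7) = 1) = False by decide, show ((4 : Fin 7) = 1) = False by decide,
      show ((5 : Fin 7) = 1) = False by decide, show ((6 : Fin 7) = 1) = False by decide,
      not_false_eq_true, if_true] at k0 k1
    have l0 := hwu 0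
    have l1 := hwu 1
    have l2 := hwu 2
    have l3 := hwu 3
    have l4 := hwu 4
    have l5 := hwu 5
    have l6 := hwu 6
    ext i
    fin_cases i
    · change w 0 = u 0; omega
    · change w 1 = u 1; omega
    · change w 2 = u 2; omega
    · change w 3 = u 3; omega
    · change w 4 = u 4; omega
    · change w 5 = u 5; omega
    · change w 6 = u 6; omega
  · intro u hu f hf
    obtain ⟨c0, c1, c2, c3, c4, h0, h1, h2, h3, h4, e0, e1, e2, e3, e4, e5, e6⟩ := hmem u hu
    refine coeff_zero K (E 1) 2 m (fun F hF => ?_) u ?_ f hf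
    · rw [mem_E] at hF
      omega
    · rw [Fin.sum_univ_seven, e0, e1, e2, e3, e4, e5, e6]
      omega


/-! ### The tetrahedra -/

theorem cover3 (C : Finset (Fin 7)) (hC : ∀ F ∈ E 3, ∃ v ∈ F, v ∈ C) :
    (0 ∈ C ∧ 1 ∈ C ∧ 2 ∈ C) ∨ 4 ≤ C.card := by
  by_contra hcon
  push Not at hcon
  obtain ⟨h1, h2⟩ := hcon
  have h3 : ∃ a : Fin 7, a ∉ ({3, 4, 5, 6} : Finset (Fin 7)) ∧ a ∉ C := by
    by_contra h
    push Not at h
    exact h1 (h 0 (by decide)) (h 1 (by decide)) (h 2 (by decide))
  obtain ⟨a, haB, haC⟩ := h3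
  have h4 : 4 ≤ Cᶜ.card := by
    rw [Finset.card_compl]
    simp only [Fintype.card_fin]
    omega
  obtain ⟨T, hT1, hT2, hT3⟩ := Finset.exists_subsuperset_card_eq
    (s := {a}) (t := Cᶜ) (n := 4) (by simpa using haC) (by simp) h4
  obtain ⟨v, hv, hvC⟩ := hC T (by
    rw [mem_E]
    refine ⟨fun h => ?_, hT3⟩
    have h5 : ({3, 4, 5, 6} : Finset (Fin 7)) = T :=
      Finset.eq_of_subset_of_card_le h (by rw [hT3]; decide)
    apply haB
    rw [h5]
    exact hT1 (Finset.mem_singleton_self a))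
  exact (Finset.mem_compl.1 (hT2 hv)) hvC

theorem coverA : (∀ F ∈ E 3, ∃ v ∈ F, v ∈ ({0, 1, 2} : Finset (Fin 7))) ∧
    ∀ v ∈ ({0, 1, 2} : Finset (Fin 7)), ∃ F ∈ E 3, ∀ w ∈ F, w ∈ ({0, 1, 2} : Finset (Fin 7)) →
      w = v := by
  constructor
  · intro F hF
    rw [mem_E] at hF
    by_contra hcon
    push Not at hcon
    have h1 : F ⊆ {3, 4, 5, 6} := by
      intro v hv
      have := hcon v hv
      clear hv
      revert v
      decide
    have h2 : F = {3, 4, 5, 6} := Finset.eq_of_subset_of_card_le h1 (by rw [hF.2]; decide)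
    exact hF.1 (by rw [h2])
  · intro v hv
    refine ⟨{v, 3, 4, 5}, ?_, ?_⟩
    · rw [mem_E]
      revert v
      decide
    · revert v
      decide

theorem coverB : (∀ F ∈ E 3, ∃ v ∈ F, v ∈ ({3, 4, 5, 6} : Finset (Fin 7))) ∧
    ∀ v ∈ ({3, 4, 5, 6} : Finset (Fin 7)), ∃ F ∈ E 3, ∀ w ∈ F,
      w ∈ ({3, 4, 5, 6} : Finset (Fin 7)) → w = v := by
  constructor
  · intro F hF
    rw [mem_E] at hF
    by_contra hcon
    push Not at hcon
    have h1 : F ⊆ {0, 1, 2} := by
      intro v hv
      have := hcon v hv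
      clear hv
      revert v
      decide
    have h2 := Finset.card_le_card h1
    rw [hF.2] at h2
    revert h2
    decide
  · intro v hv
    refine ⟨{0, 1, 2, v}, ?_, ?_⟩
    · rw [mem_E]
      revert v
      decide
    · revert v
      decide

/-- The exponent vectors of many minimal generators of the symbolic power of the ideal of the
tetrahedra. -/
def vec3 (m r : ℕ) (c : Fin 5 → ℕ) : Fin 7 → ℕ :=
  ![16 * r - c 0, 16 * r - c 1, m - (16 * r - c 0) - (16 * r - c 1),
    12 * r - c 2, 12 * r - c 3, 12 * r - c 4,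
    m - (12 * r - c 2) - (12 * r - c 3) - (12 * r - c 4)]

theorem lower3 (K : Type) [Field K] (m r q : ℕ) (hm1 : 48 * r ≤ m) (hm2 : m < 48 * r + 48)
    (hq : r = q + 11) (hq0 : 0 < q) :
    q ^ 5 ≤ sdefect (edgeIdeal K (E 3)) m := by
  classical
  set G : Finset (Fin 7 →₀ ℕ) :=
    (Finset.univ : Finset (Fin 5 → Fin q)).image (fun c => vec (vec3 m r (fun i => c i))) with hG
  have hcard : G.card = q ^ 5 := by
    rw [hG, Finset.card_image_of_injective]
    · simp
    · intro c c' h
      have h0 : ∀ j : Fin 7, vec3 m r (fun i => (c i : ℕ)) j = vec3 m r (fun i => (c' i : ℕ)) j :=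
        fun j => by
          have := DFunLike.congr_fun h j
          simpa using this
      funext i
      apply Fin.ext
      have b0 := (c 0).2
      have b1 := (c 1).2
      have b2 := (c 2).2
      have b3 := (c 3).2
      have b4 := (c 4).2
      have b0' := (c' 0).2
      have b1' := (c' 1).2
      have b2' := (c' 2).2
      have b3' := (c' 3).2
      have b4' := (c' 4).2
      have h00 : 16 * r - (c 0 : ℕ) = 16 * r - (c' 0 : ℕ) := h0 0
      have h01 : 16 * r - (c 1 : ℕ) = 16 * r - (c' 1 : ℕ) := h0 1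
      have h03 : 12 * r - (c 2 : ℕ) = 12 * r - (c' 2 : ℕ) := h0 3
      have h04 : 12 * r - (c 3 : ℕ) = 12 * r - (c' 3 : ℕ) := h0 4
      have h05 : 12 * r - (c 4 : ℕ) = 12 * r - (c' 4 : ℕ) := h0 5
      fin_cases i
      · change (c 0 : ℕ) = (c' 0 : ℕ); omega
      · change (c 1 : ℕ) = (c' 1 : ℕ); omega
      · change (c 2 : ℕ) = (c' 2 : ℕ); omega
      · change (c 3 : ℕ) = (c' 3 : ℕ); omega
      · change (c 4 : ℕ) = (c' 4 : ℕ); omega
  rw [← hcard]
  have hmem : ∀ u ∈ G, ∃ c0 c1 c2 c3 c4 : ℕ, c0 < q ∧ c1 < q ∧ c2 < q ∧ c3 < q ∧ c4 < q ∧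
      u 0 = 16 * r - c0 ∧ u 1 = 16 * r - c1 ∧ u 2 = m - (16 * r - c0) - (16 * r - c1) ∧
      u 3 = 12 * r - c2 ∧ u 4 = 12 * r - c3 ∧ u 5 = 12 * r - c4 ∧
      u 6 = m - (12 * r - c2) - (12 * r - c3) - (12 * r - c4) := by
    intro u hu
    rw [hG, Finset.mem_image] at hu
    obtain ⟨c, -, rfl⟩ := hu
    exact ⟨c 0, c 1, c 2, c 3, c 4, (c 0).2, (c 1).2, (c 2).2, (c 3).2, (c 4).2, rfl, rfl, rfl,
      rfl, rfl, rfl, rfl⟩
  apply lower
  · intro u hu
    obtain ⟨c0, c1, c2, c3, c4, h0, h1, h2, h3, h4, e0, e1, e2, e3, e4, e5, e6⟩ := hmem u hu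
    apply mem_symb
    intro C hC
    have hc := cover3 C hC
    rw [card7] at hc
    rw [sum7]
    have f0 : 16 * r - q + 1 ≤ u 0 ∧ u 0 ≤ 16 * r := by omega
    have f1 : 16 * r - q + 1 ≤ u 1 ∧ u 1 ≤ 16 * r := by omega
    have f2 : u 0 + u 1 + u 2 = m := by omega
    have f3 : 12 * r - q + 1 ≤ u 3 ∧ u 3 ≤ 12 * r := by omega
    have f4 : 12 * r - q + 1 ≤ u 4 ∧ u 4 ≤ 12 * r := by omega
    have f5 : 12 * r - q + 1 ≤ u 5 ∧ u 5 ≤ 12 * r := by omega
    have f6 : u 3 + u 4 + u 5 + u 6 = m := by omega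
    clear e0 e1 e2 e3 e4 e5 e6 h0 h1 h2 h3 h4
    by_cases h0 : (0 : Fin 7) ∈ C <;> by_cases h1 : (1 : Fin 7) ∈ C <;>
    by_cases h2 : (2 : Fin 7) ∈ C <;> by_cases h3 : (3 : Fin 7) ∈ C <;>
    by_cases h4 : (4 : Fin 7) ∈ C <;> by_cases h5 : (5 : Fin 7) ∈ C <;>
    by_cases h6 : (6 : Fin 7) ∈ C <;>
    simp only [h0, h1, h2, h3, h4, h5, h6, if_true, if_false, and_true, and_false, false_or] at hc ⊢ <;> omega
  · intro u hu f hf w hw hwu
    obtain ⟨c0, c1, c2, c3, c4, h0, h1, h2, h3, h4, e0, e1, e2, e3, e4, e5, e6⟩ := hmem u hu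
    have k0 := mem_J.1 (symb_le (K := K) (E 3) m {0, 1, 2} coverA.1 coverA.2 hf) w hw
    have k1 := mem_J.1 (symb_le (K := K) (E 3) m {3, 4, 5, 6} coverB.1 coverB.2 hf) w hw
    have s0 : ∑ v ∈ ({0, 1, 2} : Finset (Fin 7)), w v = w 0 + w 1 + w 2 := by
      rw [Finset.sum_insert (by decide), Finset.sum_insert (by decide), Finset.sum_singleton]
      ring
    have s1 : ∑ v ∈ ({3, 4, 5, 6} : Finset (Fin 7)), w v = w 3 + w 4 + w 5 + w 6 := by
      rw [Finset.sum_insert (by decide), Finset.sum_insert (by decide),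
        Finset.sum_insert (by decide), Finset.sum_singleton]
      ring
    rw [s0] at k0
    rw [s1] at k1
    have l0 := hwu 0
    have l1 := hwu 1
    have l2 := hwu 2
    have l3 := hwu 3
    have l4 := hwu 4
    have l5 := hwu 5
    have l6 := hwu 6
    ext i
    fin_cases i
    · change w 0 = u 0; omega
    · change w 1 = u 1; omega
    · change w 2 = u 2; omega
    · change w 3 = u 3; omega
    · change w 4 = u 4; omega
    · change w 5 = u 5; omega
    · change w 6 = u 6; omega
  · intro u hu f hf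
    obtain ⟨c0, c1, c2, c3, c4, h0, h1, h2, h3, h4, e0, e1, e2, e3, e4, e5, e6⟩ := hmem u hu
    refine coeff_zero K (E 3) 4 m (fun F hF => ?_) u ?_ f hf
    · rw [mem_E] at hF
      omega
    · rw [Fin.sum_univ_seven, e0, e1, e2, e3, e4, e5, e6]
      omega

/-! ### The triangles -/

theorem cover2 (C : Finset (Fin 7)) (hC : ∀ F ∈ E 2, ∃ v ∈ F, v ∈ C) : 5 ≤ C.card := by
  by_contra hcon
  push Not at hcon
  have h4 : 3 ≤ Cᶜ.card := by
    rw [Finset.card_compl]
    simp only [Fintype.card_fin]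
    omega
  obtain ⟨T, hT2, hT3⟩ := Finset.exists_subset_card_eq h4
  obtain ⟨v, hv, hvC⟩ := hC T (by
    rw [mem_E]
    refine ⟨fun h => ?_, hT3⟩
    have := Finset.card_le_card h
    rw [hT3] at this
    revert this
    decide)
  exact (Finset.mem_compl.1 (hT2 hv)) hvC

theorem cover5 (C : Finset (Fin 7)) (h5 : C.card = 5) : (∀ F ∈ E 2, ∃ v ∈ F, v ∈ C) ∧
    ∀ v ∈ C, ∃ F ∈ E 2, ∀ w ∈ F, w ∈ C → w = v := by
  constructor
  · intro F hF
    rw [mem_E] at hF
    by_contra hcon
    push Not at hcon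
    have h1 : Disjoint F C := Finset.disjoint_left.2 hcon
    have h2 := Finset.card_le_univ (F ∪ C)
    rw [Finset.card_union_of_disjoint h1, hF.2, h5] at h2
    simp at h2
  · intro v hv
    have hv' : v ∉ Cᶜ := by simpa using hv
    have hc : Cᶜ.card = 2 := by
      rw [Finset.card_compl, h5]
      simp
    refine ⟨insert v Cᶜ, ?_, ?_⟩
    · rw [mem_E]
      have h3 : (insert v Cᶜ).card = 3 := by rw [Finset.card_insert_of_notMem hv', hc]
      refine ⟨fun h => ?_, h3⟩
      have := Finset.card_le_card h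
      rw [h3] at this
      revert this
      decide
    · intro w hw hwC
      rcases Finset.mem_insert.1 hw with h | h
      · exact h
      · exact absurd hwC (Finset.mem_compl.1 h)

/-- All sums over five coordinates are at least `m`. -/
def Good (m : ℕ) (u : Fin 7 → ℕ) : Prop := ∀ C : Finset (Fin 7), C.card = 5 → m ≤ ∑ v ∈ C, u v

/-- The vector which on the first four places (in the order `σ`) is given by `c`, and which is
constant on the other three places. -/
def Psi (m : ℕ) (σ : Equiv.Perm (Fin 7)) (c : Fin 4 → ℕ) : Fin 7 → ℕ :=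
  fun i => (![c 0, c 1, c 2, c 3, m - (c 0 + c 1 + c 2 + c 3), m - (c 0 + c 1 + c 2 + c 3),
    m - (c 0 + c 1 + c 2 + c 3)] : Fin 7 → ℕ) (σ.symm i)

theorem good_dom (m : ℕ) (w : Fin 7 → ℕ) (hw : Good m w) :
    ∃ (σ : Equiv.Perm (Fin 7)) (c : Fin 4 → ℕ), (∀ i, c i ≤ m) ∧ Good m (Psi m σ c) ∧
      Psi m σ c ≤ w := by
  classical
  have hex : ∃ k, ∃ u : Fin 7 → ℕ, u ≤ w ∧ Good m u ∧ ∑ i, u i = k := ⟨_, w, le_rfl, hw, rfl⟩
  obtain ⟨u, huw, hu, hsum⟩ := Nat.find_spec hex
  have hmin : ∀ u' : Fin 7 → ℕ, u' ≤ w → Good m u' → ∑ i, u i ≤ ∑ i, u' i := by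
    intro u' h1 h2
    rw [hsum]
    exact Nat.find_min' hex ⟨u', h1, h2, rfl⟩
  set σ := Tuple.sort u with hσ
  set v : Fin 7 → ℕ := u ∘ σ with hv
  have hmono : Monotone v := Tuple.monotone_sort u
  have m01 : v 0 ≤ v 1 := hmono (by decide)
  have m12 : v 1 ≤ v 2 := hmono (by decide)
  have m23 : v 2 ≤ v 3 := hmono (by decide)
  have m34 : v 3 ≤ v 4 := hmono (by decide)
  have m45 : v 4 ≤ v 5 := hmono (by decide)
  have m56 : v 5 ≤ v 6 := hmono (by decide)
  have hge : m ≤ v 0 + v 1 + v 2 + v 3 + v 4 := by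
    have h1 := hu ((({0, 1, 2, 3, 4} : Finset (Fin 7))).map σ.toEmbedding) (by
      rw [Finset.card_map]; decide)
    rw [Finset.sum_map] at h1
    rw [Finset.sum_insert (by decide), Finset.sum_insert (by decide),
      Finset.sum_insert (by decide), Finset.sum_insert (by decide), Finset.sum_singleton] at h1
    change m ≤ v 0 + (v 1 + (v 2 + (v 3 + v 4))) at h1
    omega
  have hsumF : ∀ C : Finset (Fin 7), ∑ i ∈ C, u i = ∑ j ∈ C.map σ.symm.toEmbedding, v j := by
    intro C
    rw [Finset.sum_map]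
    apply Finset.sum_congr rfl
    intro i _
    simp [hv]
  have hclaim : v 6 = v 4 ∧ v 0 + v 1 + v 2 + v 3 + v 4 = m := by
    by_contra hcon
    have hpos : 0 < v 6 := by
      by_contra h0
      apply hcon
      constructor
      · omega
      · omega
    have hpos' : 0 < u (σ 6) := hpos
    have hlt : m + 1 ≤ v 0 + v 1 + v 2 + v 3 + v 6 := by
      by_contra h0
      apply hcon
      constructor
      · omega
      · omega
    have h1 : Good m (Function.update u (σ 6) (u (σ 6) - 1)) := by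
      intro C hC
      by_cases h6 : σ 6 ∈ C
      · have h2 : ∑ i ∈ C, Function.update u (σ 6) (u (σ 6) - 1) i + 1 = ∑ i ∈ C, u i := by
          rw [← Finset.add_sum_erase C _ h6, ← Finset.add_sum_erase C u h6,
            Function.update_self]
          have h3 : ∑ i ∈ C.erase (σ 6), Function.update u (σ 6) (u (σ 6) - 1) i =
              ∑ i ∈ C.erase (σ 6), u i := by
            apply Finset.sum_congr rfl
            intro i hi
            rw [Function.update_of_ne (Finset.ne_of_mem_erase hi)]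
          rw [h3]
          omega
        rw [hsumF] at h2
        have h3 := (sorted_sum v m01 m12 m23 m34 m45 m56 (C.map σ.symm.toEmbedding)
          (by rw [Finset.card_map, hC])).2 (by
            rw [Finset.mem_map]
            exact ⟨σ 6, h6, by simp⟩)
        omega
      · have h2 : ∑ i ∈ C, Function.update u (σ 6) (u (σ 6) - 1) i = ∑ i ∈ C, u i := by
          apply Finset.sum_congr rfl
          intro i hi
          rw [Function.update_of_ne]
          rintro rfl
          exact h6 hi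
        rw [h2]
        exact hu C hC
    have h2 : Function.update u (σ 6) (u (σ 6) - 1) ≤ w := by
      intro i
      by_cases hi : i = σ 6
      · subst hi
        rw [Function.update_self]
        exact le_trans (Nat.sub_le _ _) (huw _)
      · rw [Function.update_of_ne hi]
        exact huw i
    have h3 := hmin _ h2 h1
    have h4 : ∑ i, Function.update u (σ 6) (u (σ 6) - 1) i + 1 = ∑ i, u i := by
      rw [← Finset.add_sum_erase Finset.univ _ (Finset.mem_univ (σ 6)),
        ← Finset.add_sum_erase Finset.univ u (Finset.mem_univ (σ 6)), Function.update_self]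
      have h5 : ∑ i ∈ Finset.univ.erase (σ 6), Function.update u (σ 6) (u (σ 6) - 1) i =
          ∑ i ∈ Finset.univ.erase (σ 6), u i := by
        apply Finset.sum_congr rfl
        intro i hi
        rw [Function.update_of_ne (Finset.ne_of_mem_erase hi)]
      rw [h5]
      omega
    omega
  obtain ⟨hc1, hc2⟩ := hclaim
  have hPsi : Psi m σ ![v 0, v 1, v 2, v 3] = u := by
    funext i
    obtain ⟨j, rfl⟩ := σ.surjective i
    unfold Psi
    rw [Equiv.symm_apply_apply]
    change _ = v j
    have e4 : m - (v 0 + v 1 + v 2 + v 3) = v 4 := by omega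
    fin_cases j
    · rfl
    · rfl
    · rfl
    · rfl
    · change m - (v 0 + v 1 + v 2 + v 3) = v 4
      exact e4
    · change m - (v 0 + v 1 + v 2 + v 3) = v 5
      omega
    · change m - (v 0 + v 1 + v 2 + v 3) = v 6
      omega
  refine ⟨σ, ![v 0, v 1, v 2, v 3], ?_, ?_, ?_⟩
  · intro i
    fin_cases i
    · change v 0 ≤ m; omega
    · change v 1 ≤ m; omega
    · change v 2 ≤ m; omega
    · change v 3 ≤ m; omega
  · rw [hPsi]
    exact hu
  · rw [hPsi]
    exact huw

theorem upper2 (K : Type) [Field K] (m : ℕ) :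
    sdefect (edgeIdeal K (E 2)) m ≤ 5040 * (m + 1) ^ 4 := by
  classical
  set G : Finset (Fin 7 →₀ ℕ) :=
    ((Finset.univ : Finset (Equiv.Perm (Fin 7) × (Fin 4 → Fin (m + 1)))).image
      (fun p => vec (Psi m p.1 (fun i => p.2 i)))).filter (fun u => Good m u) with hG
  have hcard : G.card ≤ 5040 * (m + 1) ^ 4 := by
    refine le_trans (Finset.card_filter_le _ _) (le_trans Finset.card_image_le ?_)
    rw [Finset.card_univ, Fintype.card_prod, Fintype.card_perm]
    simp [Nat.factorial]
  refine le_trans (upper _ m G ?_ ?_) hcard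
  · intro u hu
    rw [hG, Finset.mem_filter] at hu
    apply mem_symb
    intro C hC
    obtain ⟨C', hC', h5⟩ := Finset.exists_subset_card_eq (cover2 C hC)
    exact le_trans (hu.2 C' h5) (Finset.sum_le_sum_of_subset hC')
  · intro f hf w hw
    have hgood : Good m w := by
      intro C hC
      exact mem_J.1 (symb_le (K := K) (E 2) m C (cover5 C hC).1 (cover5 C hC).2 hf) w hw
    obtain ⟨σ, c, hc, h1, h2⟩ := good_dom m w hgood
    refine ⟨vec (Psi m σ c), ?_, h2⟩
    rw [hG, Finset.mem_filter, Finset.mem_image]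
    refine ⟨⟨(σ, fun i => ⟨c i, Nat.lt_succ_of_le (hc i)⟩), Finset.mem_univ _, rfl⟩, h1⟩

/-! ### The theorem -/

theorem valley (K : Type) [Field K] (m : ℕ) (hm : 48 * 10 ^ 11 ≤ m) :
    coeffSeq K Δ₀ m 2 < coeffSeq K Δ₀ m 1 ∧ coeffSeq K Δ₀ m 2 < coeffSeq K Δ₀ m 3 := by
  unfold coeffSeq
  rw [facetIdeal_skel, facetIdeal_skel, facetIdeal_skel]
  change sdefect (edgeIdeal K (E 2)) m < sdefect (edgeIdeal K (E 1)) m ∧
    sdefect (edgeIdeal K (E 2)) m < sdefect (edgeIdeal K (E 3)) m
  obtain ⟨r, hr⟩ : ∃ r, r = m / 48 := ⟨_, rfl⟩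
  obtain ⟨q, hq⟩ : ∃ q, q = r - 11 := ⟨_, rfl⟩
  have h1 := lower1 K m q (by omega)
  have h3 := lower3 K m r q (by omega) (by omega) (by omega) (by omega)
  have h2 := upper2 K m
  have h4 : m + 1 ≤ 49 * q := by omega
  have h5 : 5040 * (m + 1) ^ 4 < q ^ 5 := by
    calc 5040 * (m + 1) ^ 4 ≤ 5040 * (49 * q) ^ 4 := by gcongr
      _ = (5040 * 49 ^ 4) * q ^ 4 := by ring
      _ < q * q ^ 4 := by
        have h6 : 5040 * 49 ^ 4 < q := by
          norm_num
          omega
        have h7 : 0 < q ^ 4 := by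
          apply pow_pos
          omega
        exact Nat.mul_lt_mul_of_pos_right h6 h7
      _ = q ^ 5 := by ring
  omega


theorem not_unimodal (K : Type) [Field K] (m : ℕ) (hm : 48 * 10 ^ 11 ≤ m) :
    ¬ Unimodal (coeffSeq K Δ₀ m) (dim Δ₀ - 1) := by
  obtain ⟨h1, h2⟩ := valley K m hm
  rw [dim_Δ₀]
  rintro ⟨k, hk1, hk2, hk3, hk4⟩
  by_cases hk : 2 ≤ k
  · have := hk3 1 2 le_rfl (by norm_num) hk
    omega
  · have := hk4 2 3 (by omega) (by norm_num) (by norm_num)
    omega

/-- There is a simplicial complex `Δ` with `7` vertices, of dimension `5`, such that over every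
field the coefficient sequence `a_1, ..., a_4` of the `m`-th symbolic defect polynomial of `Δ` has
`a_1 > a_2 < a_3` for all large `m`, so that it is not unimodal; therefore the sequence of the
symbolic defect polynomials of `Δ` is not asymptotically quasi-unimodal. -/
theorem result : ∃ Δ : Finset (Finset (Fin 7)), IsComplex Δ ∧ dim Δ = 5 ∧
    ∀ (K : Type) [Field K],
      (∃ M, ∀ m, M ≤ m → coeffSeq K Δ m 2 < coeffSeq K Δ m 1 ∧
        coeffSeq K Δ m 2 < coeffSeq K Δ m 3 ∧ ¬ Unimodal (coeffSeq K Δ m) (dim Δ - 1)) ∧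
      ¬ AsymptoticallyQuasiUnimodal K Δ := by
  refine ⟨Δ₀, isComplex_Δ₀, dim_Δ₀, fun K _ => ⟨⟨48 * 10 ^ 11, fun m hm =>
    ⟨(valley K m hm).1, (valley K m hm).2, not_unimodal K m hm⟩⟩, ?_⟩⟩
  rintro ⟨k, hk, N, hN⟩
  refine not_unimodal K (k * (N + 48 * 10 ^ 11)) ?_ (hN _ ?_ (dvd_mul_right _ _))
  · nlinarith
  · nlinarith

end Pool.Agent.Results.MP_2a0133_al.NotUnimodal
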